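import Pool.Agent.Work.MP_24478e_mp.Final

/-!
# MP_24478e_mp: cosymmetries of the Krichever-Novikov equation

Every cosymmetry of the Krichever-Novikov equation is the variational derivative of a conserved
density.  All definitions are in `Pool/Agent/Work/MP_24478e_mp/Defs.lean` and follow the problem
file: a jet is a sequence `x : ℕ → ℂ` (the coordinate `x i` is `u_i`), and the differential
functions are the functions which near a given jet `a` (with `u_1 ≠ 0`) are analytic functions of
finitely many of the jet variables.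
-/

namespace Pool.Agent.Results.MP_24478e_mp.Cosymmetry

open Filter Topology
open Pool.Agent.Work.MP_24478e_mp

/-- For every polynomial `P` (of degree at most four or of any other degree), every jet `a` with
`u_1 ≠ 0` and every locally analytic `g` with `D_t g + F_*^+ g = 0` near `a`, there is a locally
analytic `ρ` with `D_t ρ ∈ Im D` and `g = δρ/δu` near `a`. -/
theorem result (P : Polynomial ℂ) (a : ℕ → ℂ) (ha : a 1 ≠ 0) (g : (ℕ → ℂ) → ℂ)
    (hg : LocAn a g) (hcos : ∀ᶠ x in 𝓝 a, Dt P g x + FstarAdj P g x = 0) :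
    ∃ ρ : (ℕ → ℂ) → ℂ, LocAn a ρ ∧
      (∃ h : (ℕ → ℂ) → ℂ, LocAn a h ∧ ∀ᶠ x in 𝓝 a, Dt P ρ x = D h x) ∧
      ∀ᶠ x in 𝓝 a, g x = varDeriv ρ x :=
  main P a ha g hg hcos

end Pool.Agent.Results.MP_24478e_mp.Cosymmetry
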